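import Pool.Agent.H514.FR.Four
import Pool.Agent.H514.GL.Fin2

/-! # The isogeny class of a curve with full rational 2-torsion: ranks and 4-ranks

Owner helper514. -/

set_option autoImplicit false

open scoped Classical

namespace Pool.Agent.H514.CL

open WeierstrassCurve Pool.Agent.W262.SH Pool.Agent.H514 Pool.Agent.H514.FR

open Pool.Agent.H514.IS (D Quo quo_fin)

open Pool.Agent.W307.RT (Cv)

open Pool.Agent.R432 (NH Tr)

/-- the translation of a root to the origin -/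
theorem translG {A B e b : ℤ} (hb : b = 3 * e ^ 2 + A) (hB : e ^ 3 + A * e + B = 0) :
    ∃ (h : NQ (EE A B) (D (3 * e) b)) (h' : NQ (D (3 * e) b) (EE A B)),
      (∀ (L : Type) [Field L] [Algebra ℚ L] (P : Pt (EE A B) L), h'.f L (h.f L P) = P) ∧
      ∀ (L : Type) [Field L] [Algebra ℚ L] (P : Pt (D (3 * e) b) L),
        h.f L (h'.f L P) = P := by
  have hBq : (B : ℚ) = -(e : ℚ) ^ 3 - A * e := by
    have : (e : ℚ) ^ 3 + A * e + B = 0 := by exact_mod_cast hB
    linarith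
  have S : Tr (e : ℚ) (EE A B) (D (3 * e) b) := by
    refine ⟨rfl, rfl, rfl, rfl, ?_, ?_, ?_⟩
    · simp only [EE, D]
      push_cast
      ring
    · simp only [EE, D, hb]
      push_cast
      ring
    · simp only [EE, D, hBq]
      ring
  have S' : Tr (-(e : ℚ)) (D (3 * e) b) (EE A B) := by
    refine ⟨rfl, rfl, rfl, rfl, ?_, ?_, ?_⟩
    · simp only [EE, D]
      push_cast
      ring
    · simp only [EE, D, hb]
      push_cast
      ring
    · simp only [EE, D, hb, hBq]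
      push_cast
      ring
  have S'' : Tr (-(-(e : ℚ))) (EE A B) (D (3 * e) b) := by
    rw [neg_neg]
    exact S
  refine ⟨ofNH (NH.tr S), ofNH (NH.tr S'), fun L _ _ P => Pool.Agent.R432.trH_inv S S' L P,
    fun L _ _ P => ?_⟩
  have h := Pool.Agent.R432.trH_inv S' S'' L P
  have h3 : Pool.Agent.R432.trH S'' L = Pool.Agent.R432.trH S L := by
    apply AddMonoidHom.ext
    intro Q
    rcases Q with _ | ⟨x, y, hxy⟩
    · rfl
    · rw [Pool.Agent.R432.trH_some, Pool.Agent.R432.trH_some]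
      exact Pool.Agent.R432.pt_congr _ _ _ (by rw [neg_neg]) rfl
  rw [h3] at h
  exact h

lemma Quo_eq (A e : ℤ) : D (-2 * (3 * e)) ((3 * e) ^ 2 - 4 * (3 * e ^ 2 + A)) = Quo A e := by
  apply WeierstrassCurve.ext
  · rfl
  · simp only [D, Quo]
    push_cast
    ring
  · rfl
  · simp only [D, Quo]
    push_cast
    ring
  · rfl

/-- the two isogenies -/
theorem two_isoG {A B e : ℤ} (hB : e ^ 3 + A * e + B = 0) (hD : 4 * A ^ 3 + 27 * B ^ 2 ≠ 0) :
    ∃ (h : NQ (EE A B) (Quo A e)) (h' : NQ (Quo A e) (EE A B)),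
      (∀ (L : Type) [Field L] [Algebra ℚ L] (P : Pt (EE A B) L), h'.f L (h.f L P) = P + P) ∧
      ∀ (L : Type) [Field L] [Algebra ℚ L] (P : Pt (Quo A e) L), h.f L (h'.f L P) = P + P := by
  obtain ⟨t, t', ht, ht'⟩ := translG (b := 3 * e ^ 2 + A) rfl hB
  have hfac : 4 * A ^ 3 + 27 * B ^ 2 = (3 * e ^ 2 + 4 * A) * (3 * e ^ 2 + A) ^ 2 := by
    have h1 : B = -(e ^ 3) - A * e := by linarith
    rw [h1]
    ring
  have hb : 3 * e ^ 2 + A ≠ 0 := by
    intro h
    apply hD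
    rw [hfac, h]
    ring
  have hd2 : (3 * e) ^ 2 - 4 * (3 * e ^ 2 + A) ≠ 0 := by
    intro h
    apply hD
    rw [hfac]
    have h1 : 3 * e ^ 2 + 4 * A = 0 := by linarith
    rw [h1, zero_mul]
  obtain ⟨i, i', hi, hi'⟩ := isog hb hd2
  have key : ∀ V : WeierstrassCurve ℚ, D (-2 * (3 * e)) ((3 * e) ^ 2 - 4 * (3 * e ^ 2 + A)) = V →
      ∃ (h : NQ (EE A B) V) (h' : NQ V (EE A B)),
      (∀ (L : Type) [Field L] [Algebra ℚ L] (P : Pt (EE A B) L), h'.f L (h.f L P) = P + P) ∧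
      ∀ (L : Type) [Field L] [Algebra ℚ L] (P : Pt V L), h.f L (h'.f L P) = P + P := by
    rintro V rfl
    refine ⟨t.comp i, i'.comp t', fun L _ _ P => ?_, fun L _ _ P => ?_⟩
    · rw [comp_f, comp_f, hi, map_add, ht]
    · rw [comp_f, comp_f, ht', hi']
  exact key _ (Quo_eq A e)

/-- the rank and the 4-rank of the quotients -/
theorem quo_four {A B e : ℤ} (hB : e ^ 3 + A * e + B = 0) (hD : 4 * A ^ 3 + 27 * B ^ 2 ≠ 0)
    (hf : Finite (Sha2 (EE A B))) :
    Module.finrank ℤ (Quo A e).toAffine.Point = Module.finrank ℤ (EE A B).toAffine.Point ∧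
    (Fr (ShaQ (Quo A e))).Finite ∧ (Fr (ShaQ (Quo A e))).ncard ≤ Nat.card (Sha2 (EE A B)) := by
  obtain ⟨h, h', hh, hh'⟩ := two_isoG hB hD
  have hset : {x : ShaQ (EE A B) | x + x = 0}.Finite := hf
  obtain ⟨k1, k2⟩ := grp (sMap h') (sMap h) (fun x => sMap_dbl h' h (hh' QB) x) hset
  refine ⟨finrank_iso h' h hh' hh, k1, k2.trans (le_of_eq ?_)⟩
  rw [← Nat.card_coe_set_eq]
  rfl

end Pool.Agent.H514.CL
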