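import Pool.Agent.H514.CL.StmL

/-! # A limit theorem for perturbed variables -/

set_option autoImplicit false

open scoped Classical

namespace Pool.Agent.H514.CL

open Filter ProbabilityTheory MeasureTheory

namespace H787LIM

theorem shr_mono {F : ℕ → Finset (ℤ × ℤ)} {P Q : ℕ → ℤ × ℤ → Prop} {H : ℕ}
    (h : ∀ c ∈ F H, P H c → Q H c) : shr F P H ≤ shr F Q H := by
  unfold shr
  refine div_le_div_of_nonneg_right ?_ (Nat.cast_nonneg _)
  refine Nat.cast_le.2 (Finset.card_le_card ?_)
  intro c hc
  rw [Finset.mem_filter] at hc ⊢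
  exact ⟨hc.1, h c hc.1 hc.2⟩

theorem shr_sub {F : ℕ → Finset (ℤ × ℤ)} {A B C : ℕ → ℤ × ℤ → Prop} {H : ℕ}
    (h : ∀ c ∈ F H, A H c → C H c ∨ B H c) : shr F A H ≤ shr F C H + shr F B H := by
  unfold shr
  rw [← add_div]
  refine div_le_div_of_nonneg_right ?_ (Nat.cast_nonneg _)
  have h1 : ((F H).filter (A H)).card ≤ ((F H).filter (C H)).card + ((F H).filter (B H)).card := by
    refine (Finset.card_le_card ?_).trans (Finset.card_union_le _ _)
    intro c hc
    rw [Finset.mem_filter] at hc
    rw [Finset.mem_union, Finset.mem_filter, Finset.mem_filter]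
    rcases h c hc.1 hc.2 with h2 | h2
    · exact Or.inl ⟨hc.1, h2⟩
    · exact Or.inr ⟨hc.1, h2⟩
  exact_mod_cast h1

/-- continuity from the left of the normal distribution function -/
theorem left_cont (t : ℝ) : Tendsto (fun n : ℕ =>
    (gaussianReal 0 1 (Set.Iic (t - 1 / ((n : ℝ) + 1)))).toReal) atTop
    (nhds (gaussianReal 0 1 (Set.Iic t)).toReal) := by
  have hna : NullSingletonClass (gaussianReal 0 1) := nullSingletonClass_gaussianReal one_ne_zero
  have hU : (⋃ n : ℕ, Set.Iic (t - 1 / ((n : ℝ) + 1))) = Set.Iio t := by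
    ext y
    simp only [Set.mem_iUnion, Set.mem_Iic, Set.mem_Iio]
    constructor
    · rintro ⟨n, hn⟩
      have : (0 : ℝ) < 1 / ((n : ℝ) + 1) := by positivity
      linarith
    · intro hy
      obtain ⟨n, hn⟩ := exists_nat_one_div_lt (sub_pos.2 hy)
      exact ⟨n, by linarith⟩
  have hmono : Monotone fun n : ℕ => Set.Iic (t - 1 / ((n : ℝ) + 1)) := by
    intro a b hab
    refine Set.Iic_subset_Iic.2 ?_
    have h1 : (a : ℝ) ≤ b := by exact_mod_cast hab
    have h2 : 1 / ((b : ℝ) + 1) ≤ 1 / ((a : ℝ) + 1) :=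
      one_div_le_one_div_of_le (by positivity) (by linarith)
    linarith
  have h := tendsto_measure_iUnion_atTop (μ := gaussianReal 0 1) hmono
  rw [hU, measure_congr (Iio_ae_eq_Iic (μ := gaussianReal 0 1) (a := t))] at h
  exact (ENNReal.tendsto_toReal (measure_ne_top _ _)).comp h

end H787LIM

open H787LIM in
theorem t_LIM : S_LIM := by
  intro F g g' w v m s ω k hs hω hg hw hall x
  set Φ : ℝ := ∏ i, (gaussianReal 0 1 (Set.Iic (x i))).toReal with hΦ
  set k' : ℕ := max k 1 with hk'
  have hk1 : 1 ≤ k' := le_max_right _ _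
  have hkk : k ≤ k' := le_max_left _ _
  have hk0 : (0 : ℝ) < k' := by exact_mod_cast (by omega : 0 < k')
  rw [tendsto_order]
  constructor
  · intro b hb
    -- choice of `δ`
    have hprod : Tendsto (fun n : ℕ => ∏ i : Fin 3,
        (gaussianReal 0 1 (Set.Iic (x i - 1 / ((n : ℝ) + 1)))).toReal) atTop (nhds Φ) :=
      tendsto_finsetProd _ fun i _ => left_cont (x i)
    obtain ⟨n, hn⟩ := (hprod.eventually_const_lt hb).exists
    set δ : ℝ := 1 / ((n : ℝ) + 1) with hδ
    have hδ0 : 0 < δ := by positivity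
    set ω' : ℕ → ℝ := fun H => min ((ω H) ^ ((k' : ℝ)⁻¹)) (Real.exp (δ * s H * Real.log 2 / k'))
      with hω'
    have hl2 : 0 < Real.log 2 := Real.log_pos (by norm_num)
    have hω't : Tendsto ω' atTop atTop := by
      have h1 : Tendsto (fun H => (ω H) ^ ((k' : ℝ)⁻¹)) atTop atTop :=
        (tendsto_rpow_atTop (inv_pos.2 hk0)).comp hω
      have h2 : Tendsto (fun H => Real.exp (δ * s H * Real.log 2 / k')) atTop atTop := by
        refine Real.tendsto_exp_atTop.comp ?_
        have h3 : Tendsto (fun H => (δ * Real.log 2 / k') * s H) atTop atTop :=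
          hs.const_mul_atTop (by positivity)
        refine h3.congr fun H => ?_
        ring
      refine tendsto_atTop.2 fun c => ?_
      filter_upwards [h1.eventually_ge_atTop c, h2.eventually_ge_atTop c] with H a1 a2
      exact le_min a1 a2
    have h1 := hg (fun i => x i - δ)
    have h2 := hw ω' hω't
    have h3 := h1.sub h2
    rw [sub_zero] at h3
    have h4 := h3.eventually_const_lt hn
    filter_upwards [h4, hω.eventually_ge_atTop 1] with H h5 h6
    refine lt_of_lt_of_le h5 ?_
    rw [sub_le_iff_le_add]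
    refine shr_sub (A := fun H c => ∀ i, g c i ≤ m H + (x i - δ) * s H)
      (B := fun H c => ¬ w c ≤ ω' H)
      (C := fun H c => v c ≤ ω H ∧ ∀ i, g' c i ≤ m H + x i * s H) ?_
    intro c hc hgc
    by_cases hwc : w c ≤ ω' H
    · left
      obtain ⟨w1, w2, w3⟩ := hall H c hc
      have hw0 : 0 < w c := by linarith
      have hlogb : 0 ≤ Real.logb 2 (w c) := Real.logb_nonneg (by norm_num) w1
      have b1 : w c ≤ (ω H) ^ ((k' : ℝ)⁻¹) := hwc.trans (min_le_left _ _)
      have b2 : w c ≤ Real.exp (δ * s H * Real.log 2 / k') := hwc.trans (min_le_right _ _)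
      refine ⟨?_, fun i => ?_⟩
      · calc v c ≤ w c ^ k := w2
          _ ≤ w c ^ k' := pow_le_pow_right₀ w1 hkk
          _ ≤ ((ω H) ^ ((k' : ℝ)⁻¹)) ^ k' := pow_le_pow_left₀ hw0.le b1 _
          _ = ω H := Real.rpow_inv_natCast_pow (by linarith) (by omega)
      · have b3 : Real.log (w c) ≤ δ * s H * Real.log 2 / k' := by
          have := Real.log_le_log hw0 b2
          rwa [Real.log_exp] at this
        have b4 : (k' : ℝ) * Real.logb 2 (w c) ≤ δ * s H := by
          unfold Real.logb
          rw [← mul_div_assoc, div_le_iff₀ hl2]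
          rw [le_div_iff₀ hk0] at b3
          linarith
        have b5 : (k : ℝ) * Real.logb 2 (w c) ≤ (k' : ℝ) * Real.logb 2 (w c) :=
          mul_le_mul_of_nonneg_right (by exact_mod_cast hkk) hlogb
        have b6 := hgc i
        have b7 := (w3 i).2
        have b8 : (x i - δ) * s H = x i * s H - δ * s H := by ring
        rw [b8] at b6
        linarith
    · exact Or.inr hwc
  · intro b hb
    have h1 := (hg x).eventually_lt_const hb
    filter_upwards [h1] with H h2
    refine lt_of_le_of_lt (shr_mono ?_) h2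
    rintro c hc ⟨-, h3⟩ i
    exact ((hall H c hc).2.2 i).1.trans (h3 i)

end Pool.Agent.H514.CL
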