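import Pool.Agent.H514.CL.Iso

/-! # The law of the Tate-Shafarevich groups in the isogeny class

Owner helper514. -/

set_option autoImplicit false

open scoped Classical

namespace Pool.Agent.H514.CL

open WeierstrassCurve Pool.Agent.W262.SH Pool.Agent.H514 Pool.Agent.H514.FR Filter

open Pool.Agent.H514.IS (Quo quo_fin)

open Pool.Agent.W307.RT (Cv Sh)

/-- `2 ^ rank * #Ш[2]` -/
noncomputable def w2 (W : WeierstrassCurve ℚ) : ℝ :=
  (2 : ℝ) ^ Module.finrank ℤ W.toAffine.Point * Nat.card (Sha2 W)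

/-- `2 ^ rank * #2Ш[4]` -/
noncomputable def w4 (W : WeierstrassCurve ℚ) : ℝ :=
  (2 : ℝ) ^ Module.finrank ℤ W.toAffine.Point * (Fr (ShaQ W)).ncard

theorem fin2 {H : ℕ} {c : ℤ × ℤ} (hc : c ∈ Cv 2 H) : Finite (Sha2 (EE c.1 c.2)) := by
  have h := fin_sha hc
  rw [sha2_eq]
  exact h

theorem disc_ne {H : ℕ} {c : ℤ × ℤ} (hc : c ∈ Cv 2 H) : 4 * c.1 ^ 3 + 27 * c.2 ^ 2 ≠ 0 := by
  simp only [Cv, Finset.mem_filter] at hc
  exact hc.2.1

/-- the second moment -/
theorem mom2 : ∃ C : ℝ, ∀ H : ℕ, ∑ c ∈ Cv 2 H, w2 (EE c.1 c.2) ^ 2 ≤ C * (Cv 2 H).card := by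
  obtain ⟨C, hC⟩ := main_sha 2 le_rfl
  refine ⟨C, fun H => ?_⟩
  have h1 := hC H
  have h2 : LgK 2 H = 1 := by
    unfold LgK th
    norm_num
  rw [h2, mul_one] at h1
  refine le_trans (le_of_eq ?_) h1
  refine Finset.sum_congr rfl fun c _ => ?_
  unfold w2
  rw [sha2_eq]
  rfl

/-- the 4-rank of the quotients -/
theorem w4_le {H : ℕ} {c : ℤ × ℤ} (hc : c ∈ Cv 2 H) {e : ℤ} (he : e ^ 3 + c.1 * e + c.2 = 0) :
    w4 (Quo c.1 e) ≤ w2 (EE c.1 c.2) := by
  obtain ⟨h1, -, h3⟩ := quo_four he (disc_ne hc) (fin2 hc)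
  unfold w4 w2
  rw [h1]
  have h4 : ((Fr (ShaQ (Quo c.1 e))).ncard : ℝ) ≤ Nat.card (Sha2 (EE c.1 c.2)) := by exact_mod_cast h3
  exact mul_le_mul_of_nonneg_left h4 (by positivity)

/-- few curves have a large value -/
theorem few (ω : ℕ → ℝ) (hω : Tendsto ω atTop atTop) : Tendsto (fun H : ℕ =>
    (((Cv 2 H).filter (fun c => ¬ w2 (EE c.1 c.2) ≤ ω H)).card : ℝ) / (Cv 2 H).card) atTop (nhds 0) := by
  obtain ⟨C, hC⟩ := mom2
  have h1 : Tendsto (fun H : ℕ => |C| / (ω H) ^ 2) atTop (nhds 0) :=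
    Tendsto.const_div_atTop ((tendsto_pow_atTop two_ne_zero).comp hω) _
  refine squeeze_zero' (Eventually.of_forall fun H => by positivity) ?_ h1
  filter_upwards [hω.eventually_gt_atTop 0] with H hH
  rcases Nat.eq_zero_or_pos (Cv 2 H).card with h0 | h0
  · rw [h0, Nat.cast_zero, div_zero]
    positivity
  · have h0' : (0 : ℝ) < (Cv 2 H).card := by exact_mod_cast h0
    rw [div_le_div_iff₀ h0' (by positivity)]
    have h2 : (((Cv 2 H).filter (fun c => ¬ w2 (EE c.1 c.2) ≤ ω H)).card : ℝ) * ω H ^ 2 ≤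
        ∑ c ∈ Cv 2 H, w2 (EE c.1 c.2) ^ 2 := by
      rw [← nsmul_eq_mul, ← Finset.sum_const]
      refine le_trans (Finset.sum_le_sum fun c hc => ?_)
        (Finset.sum_le_sum_of_subset_of_nonneg (Finset.filter_subset _ _) fun c _ _ => by positivity)
      rw [Finset.mem_filter, not_le] at hc
      exact pow_le_pow_left₀ hH.le hc.2.le 2
    refine h2.trans ((hC H).trans ?_)
    exact mul_le_mul_of_nonneg_right (le_abs_self C) h0'.le

/-- a limit is not changed by a condition which holds for almost all elements -/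
theorem lim_and (P Q : ℕ → ℤ × ℤ → Prop) (F : ℕ → Finset (ℤ × ℤ)) (a : ℝ)
    (h1 : Tendsto (fun H : ℕ => (((F H).filter (P H)).card : ℝ) / (F H).card) atTop (nhds a))
    (h2 : Tendsto (fun H : ℕ => (((F H).filter (fun c => ¬ Q H c)).card : ℝ) / (F H).card) atTop (nhds 0)) :
    Tendsto (fun H : ℕ => (((F H).filter (fun c => Q H c ∧ P H c)).card : ℝ) / (F H).card) atTop (nhds a) := by
  have h3 := h1.sub h2
  rw [sub_zero] at h3
  refine tendsto_of_tendsto_of_tendsto_of_le_of_le h3 h1 (fun H => ?_) (fun H => ?_)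
  · rw [← sub_div]
    refine div_le_div_of_nonneg_right ?_ (Nat.cast_nonneg _)
    rw [sub_le_iff_le_add]
    have h4 : ((F H).filter (P H)) ⊆ ((F H).filter (fun c => Q H c ∧ P H c)) ∪
        ((F H).filter (fun c => ¬ Q H c)) := by
      intro c hc
      rw [Finset.mem_filter] at hc
      rw [Finset.mem_union, Finset.mem_filter, Finset.mem_filter]
      by_cases h : Q H c
      · exact Or.inl ⟨hc.1, h, hc.2⟩
      · exact Or.inr ⟨hc.1, h⟩
    have h5 := (Nat.cast_le (α := ℝ)).2 ((Finset.card_le_card h4).trans (Finset.card_union_le _ _))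
    rw [Nat.cast_add] at h5
    exact h5
  · refine div_le_div_of_nonneg_right ?_ (Nat.cast_nonneg _)
    have h4 : ((F H).filter (fun c => Q H c ∧ P H c)) ⊆ ((F H).filter (P H)) := by
      intro c hc
      rw [Finset.mem_filter] at hc ⊢
      exact ⟨hc.1, hc.2.2⟩
    exact (Nat.cast_le (α := ℝ)).2 (Finset.card_le_card h4)

end Pool.Agent.H514.CL
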