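import Mathlib

/-! # Torsion subgroups and homomorphisms

Owner helper514. -/

set_option autoImplicit false

open scoped Classical

namespace Pool.Agent.H514.CL

/-- the subgroup killed by `n` -/
def Tn (S : Type) [AddCommGroup S] (n : ℕ) : AddSubgroup S := (nsmulAddMonoidHom (α := S) n).ker

lemma mem_Tn {S : Type} [AddCommGroup S] {n : ℕ} {x : S} : x ∈ Tn S n ↔ n • x = 0 := Iff.rfl

theorem card_le_mul {A B : Type} [AddCommGroup A] [AddCommGroup B] (f : A →+ B)
    (P R : AddSubgroup A) (Q : AddSubgroup B) (h1 : ∀ x ∈ P, f x ∈ Q)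
    (h2 : ∀ x ∈ P, f x = 0 → x ∈ R) (hQ : Finite Q) (hR : Finite R) :
    Finite P ∧ Nat.card P ≤ Nat.card R * Nat.card Q := by
  let φ : P →+ Q := (f.comp P.subtype).codRestrict Q (fun x => h1 x x.2)
  have hk0 : ∀ x : φ.ker, ((x : P) : A) ∈ R := by
    intro x
    have h := x.2
    rw [AddMonoidHom.mem_ker] at h
    exact h2 _ (x : P).2 (congrArg (fun y : Q => (y : B)) h)
  have hinj : Function.Injective (fun x : φ.ker => (⟨((x : P) : A), hk0 x⟩ : R)) := by
    intro x y hxy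
    apply Subtype.ext
    apply Subtype.ext
    exact congrArg (fun z : R => (z : A)) hxy
  have hk : Finite φ.ker := Finite.of_injective _ hinj
  have hq : Finite (P ⧸ φ.ker) :=
    Finite.of_equiv _ (QuotientAddGroup.quotientKerEquivRange φ).toEquiv.symm
  have hP : Finite P := Finite.of_equiv _ (AddSubgroup.addGroupEquivQuotientProdAddSubgroup
    (s := φ.ker)).symm
  refine ⟨hP, ?_⟩
  rw [AddSubgroup.card_eq_card_quotient_mul_card_addSubgroup φ.ker, mul_comm]
  refine Nat.mul_le_mul (Nat.card_le_card_of_injective _ hinj) ?_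
  rw [Nat.card_congr (QuotientAddGroup.quotientKerEquivRange φ).toEquiv]
  exact Nat.card_le_card_of_injective (fun y : φ.range => (y : Q)) Subtype.val_injective

theorem tk_self {S : Type} [AddCommGroup S] (h : Finite (Tn S 2)) (k : ℕ) :
    Finite (Tn S (2 ^ k)) ∧ Nat.card (Tn S (2 ^ k)) ≤ (Nat.card (Tn S 2)) ^ k := by
  induction k with
  | zero =>
    have hs : Subsingleton (Tn S (2 ^ 0)) := by
      constructor
      rintro ⟨x, hx⟩ ⟨y, hy⟩
      apply Subtype.ext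
      rw [mem_Tn, pow_zero, one_nsmul] at hx hy
      change x = y
      rw [hx, hy]
    refine ⟨inferInstance, ?_⟩
    rw [pow_zero (Nat.card (Tn S 2))]
    exact Finite.card_le_one_iff_subsingleton.2 hs
  | succ k ih =>
    obtain ⟨h1, h2⟩ := ih
    obtain ⟨h3, h4⟩ := card_le_mul (nsmulAddMonoidHom (α := S) 2) (Tn S (2 ^ (k + 1))) (Tn S 2)
      (Tn S (2 ^ k)) (fun x hx => by
        rw [mem_Tn] at hx ⊢
        change 2 ^ k • (2 : ℕ) • x = 0
        rw [← mul_nsmul, ← pow_succ']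
        exact hx) (fun x _ hx => hx) h1 h
    refine ⟨h3, h4.trans ?_⟩
    rw [pow_succ' (Nat.card (Tn S 2))]
    exact Nat.mul_le_mul_left _ h2

theorem tk_iso {S S' : Type} [AddCommGroup S] [AddCommGroup S'] (f : S' →+ S) (g : S →+ S')
    (hgf : ∀ x, g (f x) = x + x) (h : Finite (Tn S 2)) (h' : Finite (Tn S' 2)) (k : ℕ) :
    Finite (Tn S' (2 ^ k)) ∧
      Nat.card (Tn S' (2 ^ k)) ≤ Nat.card (Tn S' 2) * (Nat.card (Tn S 2)) ^ k := by
  obtain ⟨h1, h2⟩ := tk_self h k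
  obtain ⟨h3, h4⟩ := card_le_mul f (Tn S' (2 ^ k)) (Tn S' 2) (Tn S (2 ^ k)) (fun x hx => by
        rw [mem_Tn] at hx ⊢
        rw [← map_nsmul, hx, map_zero]) (fun x _ hx => by
        rw [mem_Tn, two_nsmul, ← hgf, hx, map_zero]) h1 h'
  exact ⟨h3, h4.trans (Nat.mul_le_mul_left _ h2)⟩

theorem tk_low {S : Type} [AddCommGroup S] {k : ℕ} (hk : 1 ≤ k) (h : Finite (Tn S (2 ^ k))) :
    Nat.card (Tn S 2) ≤ Nat.card (Tn S (2 ^ k)) := by
  refine Nat.card_le_card_of_injective (fun x : Tn S 2 => (⟨(x : S), ?_⟩ : Tn S (2 ^ k))) ?_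
  · have hx := x.2
    rw [mem_Tn] at hx ⊢
    obtain ⟨j, rfl⟩ := Nat.exists_eq_add_of_le hk
    rw [pow_add, pow_one, mul_nsmul, hx, nsmul_zero]
  · intro x y hxy
    apply Subtype.ext
    exact congrArg (fun z : Tn S (2 ^ k) => (z : S)) hxy

/-- the doubles of the elements killed by `n` -/
def Dn (S : Type) [AddCommGroup S] (n : ℕ) : Type := {x : S // ∃ y : S, n • y = 0 ∧ x = (2 : ℕ) • y}

theorem dn_iso {S S' : Type} [AddCommGroup S] [AddCommGroup S'] (f : S' →+ S) (g : S →+ S')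
    (hgf : ∀ x, g (f x) = x + x) (h : Finite (Tn S 2)) (k : ℕ) :
    Finite (Dn S' (2 ^ k)) ∧ Nat.card (Dn S' (2 ^ k)) ≤ (Nat.card (Tn S 2)) ^ k := by
  obtain ⟨h1, h2⟩ := tk_self h k
  have hx : ∀ x : Dn S' (2 ^ k), ∃ z : Tn S (2 ^ k), g z = x.1 := by
    rintro ⟨x, y, hy, rfl⟩
    refine ⟨⟨f y, ?_⟩, ?_⟩
    · rw [mem_Tn, ← map_nsmul, hy, map_zero]
    · change g (f y) = (2 : ℕ) • y
      rw [hgf, two_nsmul]
  choose z hz using hx
  have hinj : Function.Injective z := by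
    intro a b hab
    apply Subtype.ext
    rw [← hz a, ← hz b, hab]
  exact ⟨Finite.of_injective z hinj, (Nat.card_le_card_of_injective z hinj).trans h2⟩

end Pool.Agent.H514.CL
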