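import Pool.Agent.H514.CL.Law
import Pool.Agent.H514.CL.Tk
import Pool.Agent.H514.CL.LIM

/-! # The law of the Tate-Shafarevich groups in the isogeny class: main theorem

Owner helper514. -/

set_option autoImplicit false

open scoped Classical

namespace Pool.Agent.H514.CL

open WeierstrassCurve Pool.Agent.W262.SH Pool.Agent.H514 Pool.Agent.H514.FR Filter ProbabilityTheory

open Pool.Agent.H514.IS (Quo quo_fin lg)

open Pool.Agent.W307.RT (Cv Sh)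

/-- the elements of `Ш(W/ℚ)` killed by `2 ^ k` -/
def ShaP (k : ℕ) (W : WeierstrassCurve ℚ) : Type := {x : ShaQ W // (2 ^ k : ℕ) • x = 0}

lemma card_ShaP (k : ℕ) (W : WeierstrassCurve ℚ) :
    Nat.card (ShaP k W) = Nat.card (Tn (ShaQ W) (2 ^ k)) := rfl

lemma card_Sha2 (W : WeierstrassCurve ℚ) : Nat.card (Sha2 W) = Nat.card (Tn (ShaQ W) 2) := by
  refine Nat.card_congr (Equiv.subtypeEquivRight fun x => ?_)
  rw [mem_Tn, two_nsmul]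

lemma fin_Sha2 {W : WeierstrassCurve ℚ} (h : Finite (Sha2 W)) : Finite (Tn (ShaQ W) 2) := by
  refine Finite.of_equiv (Sha2 W) (Equiv.subtypeEquivRight fun x => ?_)
  rw [mem_Tn, two_nsmul]

theorem fin_E {H : ℕ} {c : ℤ × ℤ} (hc : c ∈ Cv 2 H) (k : ℕ) :
    Finite (ShaP k (EE c.1 c.2)) ∧
      Nat.card (ShaP k (EE c.1 c.2)) ≤ (Nat.card (Sha2 (EE c.1 c.2))) ^ k := by
  rw [card_Sha2]
  exact tk_self (fin_Sha2 (fin2 hc)) k

theorem fin_Q {H : ℕ} {c : ℤ × ℤ} (hc : c ∈ Cv 2 H) {e : ℤ} (he : e ^ 3 + c.1 * e + c.2 = 0)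
    (k : ℕ) : Finite (ShaP k (Quo c.1 e)) ∧ Nat.card (ShaP k (Quo c.1 e)) ≤
      Nat.card (Sha2 (Quo c.1 e)) * (Nat.card (Sha2 (EE c.1 c.2))) ^ k := by
  obtain ⟨h, h', hh, hh'⟩ := two_isoG he (disc_ne hc)
  rw [card_Sha2, card_Sha2]
  exact tk_iso (sMap h') (sMap h) (fun x => sMap_dbl h' h (hh' QB) x) (fin_Sha2 (fin2 hc))
    (fin_Sha2 (quo_fin hc he)) k

/-- the doubles of the elements of `Ш(W/ℚ)` killed by `2 ^ k` -/
def ShaD (k : ℕ) (W : WeierstrassCurve ℚ) : Type :=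
  {x : ShaQ W // ∃ y : ShaQ W, (2 ^ k : ℕ) • y = 0 ∧ x = (2 : ℕ) • y}

theorem fin_D {H : ℕ} {c : ℤ × ℤ} (hc : c ∈ Cv 2 H) {e : ℤ} (he : e ^ 3 + c.1 * e + c.2 = 0)
    (k : ℕ) : Finite (ShaD k (Quo c.1 e)) ∧ Nat.card (ShaD k (Quo c.1 e)) ≤
      (Nat.card (Sha2 (EE c.1 c.2))) ^ k := by
  obtain ⟨h, h', hh, hh'⟩ := two_isoG he (disc_ne hc)
  rw [card_Sha2]
  exact dn_iso (sMap h') (sMap h) (fun x => sMap_dbl h' h (hh' QB) x) (fin_Sha2 (fin2 hc)) k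

theorem rank_Q {H : ℕ} {c : ℤ × ℤ} (hc : c ∈ Cv 2 H) {e : ℤ} (he : e ^ 3 + c.1 * e + c.2 = 0) :
    Module.finrank ℤ (Quo c.1 e).toAffine.Point = Module.finrank ℤ (EE c.1 c.2).toAffine.Point :=
  (quo_four he (disc_ne hc) (fin2 hc)).1

lemma one_le_w2 {H : ℕ} {c : ℤ × ℤ} (hc : c ∈ Cv 2 H) :
    (1 : ℝ) ≤ Nat.card (Sha2 (EE c.1 c.2)) ∧
    (Nat.card (Sha2 (EE c.1 c.2)) : ℝ) ≤ w2 (EE c.1 c.2) ∧
    (1 : ℝ) ≤ (2 : ℝ) ^ Module.finrank ℤ (EE c.1 c.2).toAffine.Point := by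
  have h1 : Finite (Sha2 (EE c.1 c.2)) := fin2 hc
  have h2 : Nonempty (Sha2 (EE c.1 c.2)) := ⟨⟨0, add_zero 0⟩⟩
  have h3 : 1 ≤ Nat.card (Sha2 (EE c.1 c.2)) := Nat.card_pos
  have h4 : (1 : ℝ) ≤ Nat.card (Sha2 (EE c.1 c.2)) := by exact_mod_cast h3
  have h5 : (1 : ℝ) ≤ (2 : ℝ) ^ Module.finrank ℤ (EE c.1 c.2).toAffine.Point :=
    one_le_pow₀ (by norm_num)
  refine ⟨h4, ?_, h5⟩
  unfold w2
  exact le_mul_of_one_le_left (by linarith) h5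

lemma data {H : ℕ} {c : ℤ × ℤ} (hc : c ∈ Cv 2 H) {k : ℕ} (hk : 1 ≤ k) :
    1 ≤ w2 (EE c.1 c.2) ∧
    (2 : ℝ) ^ Module.finrank ℤ (EE c.1 c.2).toAffine.Point * Nat.card (ShaP k (EE c.1 c.2)) ≤
      w2 (EE c.1 c.2) ^ k := by
  obtain ⟨h1, h2, h3⟩ := one_le_w2 hc
  refine ⟨h1.trans h2, ?_⟩
  unfold w2
  rw [mul_pow]
  have h4 : (Nat.card (ShaP k (EE c.1 c.2)) : ℝ) ≤ (Nat.card (Sha2 (EE c.1 c.2)) : ℝ) ^ k := by
    exact_mod_cast (fin_E hc k).2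
  exact mul_le_mul (le_self_pow₀ h3 (by omega)) h4 (Nat.cast_nonneg _) (by positivity)

lemma dataD {H : ℕ} {c : ℤ × ℤ} (hc : c ∈ Cv 2 H) {e : ℤ} (he : e ^ 3 + c.1 * e + c.2 = 0)
    {k : ℕ} (hk : 1 ≤ k) :
    (2 : ℝ) ^ Module.finrank ℤ (Quo c.1 e).toAffine.Point * Nat.card (ShaD k (Quo c.1 e)) ≤
      w2 (EE c.1 c.2) ^ k := by
  obtain ⟨h1, h2, h3⟩ := one_le_w2 hc
  rw [rank_Q hc he]
  unfold w2
  rw [mul_pow]
  have h4 : (Nat.card (ShaD k (Quo c.1 e)) : ℝ) ≤ (Nat.card (Sha2 (EE c.1 c.2)) : ℝ) ^ k := by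
    exact_mod_cast (fin_D hc he k).2
  exact mul_le_mul (le_self_pow₀ h3 (by omega)) h4 (Nat.cast_nonneg _) (by positivity)

lemma dataQ {H : ℕ} {c : ℤ × ℤ} (hc : c ∈ Cv 2 H) {e : ℤ} (he : e ^ 3 + c.1 * e + c.2 = 0)
    {k : ℕ} (hk : 1 ≤ k) :
    lg (Quo c.1 e) ≤ Real.logb 2 (Nat.card (ShaP k (Quo c.1 e))) ∧
    Real.logb 2 (Nat.card (ShaP k (Quo c.1 e))) ≤
      lg (Quo c.1 e) + k * Real.logb 2 (w2 (EE c.1 c.2)) := by
  obtain ⟨h1, h2, h3⟩ := one_le_w2 hc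
  obtain ⟨h4, h5⟩ := fin_Q hc he k
  have h6 : Finite (Sha2 (Quo c.1 e)) := quo_fin hc he
  have h7 : Nonempty (Sha2 (Quo c.1 e)) := ⟨⟨0, add_zero 0⟩⟩
  have h8 : 1 ≤ Nat.card (Sha2 (Quo c.1 e)) := Nat.card_pos
  have h8' : (1 : ℝ) ≤ Nat.card (Sha2 (Quo c.1 e)) := by exact_mod_cast h8
  have h9 : Nat.card (Sha2 (Quo c.1 e)) ≤ Nat.card (ShaP k (Quo c.1 e)) := by
    rw [card_Sha2]
    exact tk_low hk h4
  have h9' : (Nat.card (Sha2 (Quo c.1 e)) : ℝ) ≤ Nat.card (ShaP k (Quo c.1 e)) := by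
    exact_mod_cast h9
  have h10 : (Nat.card (ShaP k (Quo c.1 e)) : ℝ) ≤
      Nat.card (Sha2 (Quo c.1 e)) * (Nat.card (Sha2 (EE c.1 c.2)) : ℝ) ^ k := by
    exact_mod_cast h5
  unfold lg
  constructor
  · exact Real.logb_le_logb_of_le (by norm_num) (by linarith) h9'
  · refine (Real.logb_le_logb_of_le (by norm_num) (by linarith) h10).trans ?_
    rw [Real.logb_mul (by linarith) (by positivity), Real.logb_pow]
    have h11 : Real.logb 2 (Nat.card (Sha2 (EE c.1 c.2))) ≤ Real.logb 2 (w2 (EE c.1 c.2)) :=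
      Real.logb_le_logb_of_le (by norm_num) (by linarith) h2
    have h12 := mul_le_mul_of_nonneg_left h11 (Nat.cast_nonneg (α := ℝ) k)
    linarith

lemma filt_eq {α : Type} (s : Finset α) (P : α → Prop) (i j : DecidablePred P) :
    @Finset.filter _ P i s = @Finset.filter _ P j s := by
  rw [Subsingleton.elim i j]

/-- the condition on the quotients, first form -/
def P1 (e : ℤ × ℤ → Fin 3 → ℤ) (x : Fin 3 → ℝ) (H : ℕ) (c : ℤ × ℤ) : Prop :=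
  ∀ i, lg (Quo c.1 (e c i)) ≤ 3 / 2 * Real.log (Real.log H) +
    x i * Real.sqrt (5 / 2 * Real.log (Real.log H))

/-- `2 ^ rank * #Ш[2 ^ k]` of the curve -/
noncomputable def va (k : ℕ) (c : ℤ × ℤ) : ℝ :=
  (2 : ℝ) ^ Module.finrank ℤ (EE c.1 c.2).toAffine.Point * Nat.card (ShaP k (EE c.1 c.2))

/-- `2 ^ rank * #2Ш[2 ^ k]` of the quotient -/
noncomputable def vb (k : ℕ) (c : ℤ × ℤ) (e : ℤ) : ℝ :=
  (2 : ℝ) ^ Module.finrank ℤ (Quo c.1 e).toAffine.Point * Nat.card (ShaD k (Quo c.1 e))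

/-- the condition on the quotients and the curve -/
def P2 (e : ℤ × ℤ → Fin 3 → ℤ) (k : ℕ) (ω : ℕ → ℝ) (x : Fin 3 → ℝ) (H : ℕ) (c : ℤ × ℤ) : Prop :=
  max (va k c) (max (vb k c (e c 0)) (max (vb k c (e c 1)) (vb k c (e c 2)))) ≤ ω H ∧
  ∀ i, Real.logb 2 (Nat.card (ShaP k (Quo c.1 (e c i)))) ≤ 3 / 2 * Real.log (Real.log H) +
    x i * Real.sqrt (5 / 2 * Real.log (Real.log H))

lemma tend_shr (F : ℕ → Finset (ℤ × ℤ)) (P : ℕ → ℤ × ℤ → Prop) (i : ∀ H, DecidablePred (P H))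
    (a : ℝ) (h : Tendsto (fun H => ((@Finset.filter _ (P H) (i H) (F H)).card : ℝ) / (F H).card)
      atTop (nhds a)) : Tendsto (shr F P) atTop (nhds a) := by
  refine h.congr fun H => ?_
  unfold shr
  rw [filt_eq (F H) (P H) (i H)]

theorem hjoint (e : ℤ × ℤ → Fin 3 → ℤ) (he : ∀ H, ∀ c ∈ Cv 2 H, Pool.Agent.H514.GL.Rts3 c (e c))
    (x : Fin 3 → ℝ) : Tendsto (shr (fun H => Cv 2 H) (P1 e x)) atTop
      (nhds (∏ i, (gaussianReal 0 1 (Set.Iic (x i))).toReal)) :=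
  tend_shr (fun H => Cv 2 H) (P1 e x) _ _ (Pool.Agent.H514.GL.joint_law e he x)

theorem hfew (ω' : ℕ → ℝ) (hω' : Tendsto ω' atTop atTop) :
    Tendsto (shr (fun H => Cv 2 H) fun H c => ¬ w2 (EE c.1 c.2) ≤ ω' H) atTop (nhds 0) :=
  tend_shr (fun H => Cv 2 H) (fun H c => ¬ w2 (EE c.1 c.2) ≤ ω' H) _ _ (few ω' hω')

lemma hs : Tendsto (fun H : ℕ => Real.sqrt (5 / 2 * Real.log (Real.log H))) atTop atTop :=
  Real.tendsto_sqrt_atTop.comp (Tendsto.const_mul_atTop (by norm_num)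
    (Real.tendsto_log_atTop.comp (Real.tendsto_log_atTop.comp tendsto_natCast_atTop_atTop)))

/-- the law of the isogeny class -/
theorem class_law (e : ℤ × ℤ → Fin 3 → ℤ) (he : ∀ H, ∀ c ∈ Cv 2 H, Pool.Agent.H514.GL.Rts3 c (e c))
    (k : ℕ) (hk : 1 ≤ k) (ω : ℕ → ℝ) (hω : Tendsto ω atTop atTop) (x : Fin 3 → ℝ) :
    Tendsto (shr (fun H => Cv 2 H) (P2 e k ω x)) atTop
      (nhds (∏ i, (gaussianReal 0 1 (Set.Iic (x i))).toReal)) := by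
  have h := t_LIM (fun H => Cv 2 H) (fun c i => lg (Quo c.1 (e c i)))
    (fun c i => Real.logb 2 (Nat.card (ShaP k (Quo c.1 (e c i)))))
    (fun c => w2 (EE c.1 c.2))
    (fun c => max (va k c) (max (vb k c (e c 0)) (max (vb k c (e c 1)) (vb k c (e c 2)))))
    (fun H => 3 / 2 * Real.log (Real.log H)) (fun H => Real.sqrt (5 / 2 * Real.log (Real.log H)))
    ω k hs hω (fun x => hjoint e he x) hfew
    (fun H c hc => ⟨(data hc hk).1, max_le (data hc hk).2 (max_le (dataD hc ((he H c hc).2.2 0) hk)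
      (max_le (dataD hc ((he H c hc).2.2 1) hk) (dataD hc ((he H c hc).2.2 2) hk))),
      fun i => dataQ hc ((he H c hc).2.2 i) hk⟩) x
  exact h

/-- the condition on the curve and the quotients, final form -/
def P3 (e : Fin 3 → ℤ) (k : ℕ) (ω : ℕ → ℝ) (x : Fin 3 → ℝ) (H : ℕ) (c : ℤ × ℤ) : Prop :=
  va k c ≤ ω H ∧ ∀ i, vb k c (e i) ≤ ω H ∧
    Real.logb 2 (Nat.card (ShaP k (Quo c.1 (e i)))) ≤ 3 / 2 * Real.log (Real.log H) +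
      x i * Real.sqrt (5 / 2 * Real.log (Real.log H))

lemma p3_iff (e : ℤ × ℤ → Fin 3 → ℤ) (k : ℕ) (ω : ℕ → ℝ) (x : Fin 3 → ℝ) (H : ℕ) (c : ℤ × ℤ) :
    P2 e k ω x H c ↔ P3 (e c) k ω x H c := by
  unfold P2 P3
  rw [max_le_iff, max_le_iff, max_le_iff]
  constructor
  · rintro ⟨⟨h1, h2, h3, h4⟩, h5⟩
    refine ⟨h1, fun i => ⟨?_, h5 i⟩⟩
    fin_cases i
    · exact h2
    · exact h3
    · exact h4
  · rintro ⟨h1, h2⟩
    exact ⟨⟨h1, (h2 0).1, (h2 1).1, (h2 2).1⟩, fun i => (h2 i).2⟩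

end Pool.Agent.H514.CL
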