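import Mathlib

/-! # A limit theorem for perturbed variables: statement

Owner helper514 (MP_e23604_nt). -/

set_option autoImplicit false

open scoped Classical

namespace Pool.Agent.H514.CL

open Filter ProbabilityTheory

/-- the proportion of the elements of `F H` with the property `P H` -/
noncomputable def shr (F : ℕ → Finset (ℤ × ℤ)) (P : ℕ → ℤ × ℤ → Prop) (H : ℕ) : ℝ :=
  (((F H).filter (P H)).card : ℝ) / (F H).card

/-- LIM.  If the vectors `(g c i - m H) / s H` have the limit law `N(0, 1)^3`, `s H → ∞`, `w` is bounded in probability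
(`few`) and `g ≤ g' ≤ g + k log₂ w`, `v ≤ w ^ k`, then `g'` has the same limit law, jointly with the condition `v ≤ ω`.

Proof.  Let `Φ(x) = ∏ Φ(x_i)` and `a(H)` = the proportion in the conclusion.
Upper bound: `a(H)` is at most the proportion for `g` (as `g ≤ g'`), which tends to `Φ(x)`.
Lower bound: fix `δ > 0`.  Put `ω'(H) = min (max (ω H) 1 ^ (1/k')) (2 ^ (δ s(H) / k'))` with `k' = max k 1` (real powers); `ω'(H) → ∞`, and
for large `H` (`ω H ≥ 1`, `s H > 0`): if `1 ≤ w c ≤ ω'(H)` then `v c ≤ w c ^ k ≤ ω H` and `k log₂ (w c) ≤ δ s(H)`.  So all `c ∈ F H` with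
`w c ≤ ω'(H)` and `g c i ≤ m H + (x_i - δ) s H` for all `i` satisfy the condition of the conclusion: `a(H) ≥ (proportion for g with
x - δ) - (proportion of ¬ w c ≤ ω' H)`, which tends to `Φ(x - δ)`.  So for every `δ > 0`: `liminf a ≥ Φ(x - δ)`, `limsup a ≤ Φ(x)`.
Finally `Φ(x - δ) → Φ(x)` as `δ → 0+`, because `t ↦ (gaussianReal 0 1 (Iic t)).toReal` is continuous: `gaussianReal 0 1` has no atoms
(`Iic (t - 1/(n+1))` increases to `Iio t`, whose measure is that of `Iic t`). -/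
def S_LIM : Prop := ∀ (F : ℕ → Finset (ℤ × ℤ)) (g g' : ℤ × ℤ → Fin 3 → ℝ) (w v : ℤ × ℤ → ℝ) (m s ω : ℕ → ℝ) (k : ℕ),
  Tendsto s atTop atTop → Tendsto ω atTop atTop →
  (∀ x : Fin 3 → ℝ, Tendsto (shr F fun H c => ∀ i, g c i ≤ m H + x i * s H) atTop
    (nhds (∏ i, (gaussianReal 0 1 (Set.Iic (x i))).toReal))) →
  (∀ ω' : ℕ → ℝ, Tendsto ω' atTop atTop → Tendsto (shr F fun H c => ¬ w c ≤ ω' H) atTop (nhds 0)) →
  (∀ H, ∀ c ∈ F H, 1 ≤ w c ∧ v c ≤ w c ^ k ∧ ∀ i, g c i ≤ g' c i ∧ g' c i ≤ g c i + k * Real.logb 2 (w c)) →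
  ∀ x : Fin 3 → ℝ, Tendsto (shr F fun H c => v c ≤ ω H ∧ ∀ i, g' c i ≤ m H + x i * s H) atTop
    (nhds (∏ i, (gaussianReal 0 1 (Set.Iic (x i))).toReal))

end Pool.Agent.H514.CL
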